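import Pool.Agent.Work.MP_376faf_co_ratio.Ratio

/-! The ratio theorem for sequences. -/

set_option autoImplicit false

namespace Pool.Agent.Work.MP_376faf_co_ratio

open Filter Topology

lemma log_pow_little (k : ℕ) (B c : ℝ) (hc : 0 < c) :
    ∀ᶠ n : ℕ in atTop, B * Real.log n ^ k ≤ c * n := by
  have h := (Real.isLittleO_pow_log_id_atTop (n := k)).bound (c := c / (|B| + 1)) (by positivity)
  have h2 := tendsto_natCast_atTop_atTop (R := ℝ) |>.eventually h
  filter_upwards [h2, eventually_ge_atTop 1] with n hn h1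
  have hn1 : (1:ℝ) ≤ n := by exact_mod_cast h1
  have hl : 0 ≤ Real.log n := Real.log_nonneg hn1
  simp only [id, Real.norm_eq_abs] at hn
  rw [abs_of_nonneg (pow_nonneg hl k), abs_of_nonneg (by linarith : (0:ℝ) ≤ n)] at hn
  have hp : 0 ≤ Real.log n ^ k := pow_nonneg hl k
  calc B * Real.log n ^ k ≤ (|B| + 1) * Real.log n ^ k :=
        mul_le_mul_of_nonneg_right (by linarith [le_abs_self B]) hp
    _ ≤ (|B| + 1) * (c / (|B| + 1) * n) := mul_le_mul_of_nonneg_left hn (by positivity)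
    _ = c * n := by field_simp

lemma rel_alg' {x y z β d : ℝ} (hx : 0 < x) (hy : 0 < y) (hz : 0 < z) (hd0 : 0 ≤ d)
    (hd : d ≤ 1 / 10) (hβ : β ≤ d * y)
    (h : (y - β) ^ 2 ≤ (1 + d) ^ 2 * (x * (z + d * y))) :
    y / x ≤ z / y + 5 * d * (1 + z / y) := by
  have h1 : (1 - d) ^ 2 * y ^ 2 ≤ (y - β) ^ 2 := by
    rw [← mul_pow]
    apply pow_le_pow_left₀
    · apply mul_nonneg _ hy.le; linarith
    · linarith
  have h2 : (1 - d) ^ 2 * (y / x) ≤ (1 + d) ^ 2 * (z / y + d) := by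
    have e1 : (1 - d) ^ 2 * (y / x) = ((1 - d) ^ 2 * y ^ 2) / (x * y) := by
      field_simp
    have e2 : (1 + d) ^ 2 * (z / y + d) = ((1 + d) ^ 2 * (x * (z + d * y))) / (x * y) := by
      field_simp
    rw [e1, e2]
    exact div_le_div_of_nonneg_right (h1.trans h) (by positivity)
  have h3 : (1 + d) ^ 2 ≤ (1 + 5 * d) * (1 - d) ^ 2 := by nlinarith [pow_nonneg hd0 2, pow_nonneg hd0 3]
  have hq : 0 < z / y := by positivity
  have h4 : (1 - d) ^ 2 * (y / x) ≤ (1 - d) ^ 2 * ((1 + 5 * d) * (z / y + d)) := by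
    calc (1 - d) ^ 2 * (y / x) ≤ (1 + d) ^ 2 * (z / y + d) := h2
      _ ≤ ((1 + 5 * d) * (1 - d) ^ 2) * (z / y + d) := mul_le_mul_of_nonneg_right h3 (by linarith)
      _ = _ := by ring
  have h5 : 0 < (1 - d) ^ 2 := by
    apply pow_pos; linarith
  have h6 := le_of_mul_le_mul_left h4 h5
  nlinarith

theorem eventually_H {b β : ℕ → ℝ} {D C0 ρ B : ℝ} {k n0 : ℕ} (hD : 1 ≤ D)
    (hρ0 : 0 < ρ) (hρ1 : ρ < 1) (hβ : ∀ n, β n ≤ C0 * ρ ^ n)
    (hrel : ∀ n, n0 ≤ n → (b (n + 1) - β n) ^ 2 ≤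
      (1 + D / n) ^ 2 * (b n * (b (n + 2) + D / n * b (n + 1))))
    (hlow : ∀ n : ℕ, 2 ≤ n → Real.exp (-(B * Real.log n ^ k)) ≤ b n) :
    ∃ n1 : ℕ, 2 ≤ n1 ∧ ∀ n, n1 ≤ n → b (n + 1) / b n ≤ b (n + 2) / b (n + 1) +
      (5 * D) / n * (1 + b (n + 2) / b (n + 1)) := by
  have hlρ : 0 < -Real.log ρ := by linarith [Real.log_neg hρ0 hρ1]
  -- β n ≤ D / n * b (n+1) eventually
  have e1 : ∀ᶠ n : ℕ in atTop, B * Real.log n ^ k ≤ (-Real.log ρ / 4) * n :=
    log_pow_little k B _ (by linarith)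
  have e2 : ∀ᶠ n : ℕ in atTop, B * Real.log ((n + 1 : ℕ):ℝ) ^ k ≤ (-Real.log ρ / 4) * ((n + 1 : ℕ) : ℝ) :=
    (tendsto_add_atTop_nat 1).eventually e1
  have e3 : ∀ᶠ n : ℕ in atTop, (1:ℝ) * Real.log n ^ 1 ≤ (-Real.log ρ / 4) * n :=
    log_pow_little 1 1 _ (by linarith)
  have e4 : ∀ᶠ n : ℕ in atTop, Real.log (|C0| + 1) ≤ (-Real.log ρ / 8) * n := by
    have := (tendsto_natCast_atTop_atTop (R := ℝ)).const_mul_atTop (by linarith : 0 < -Real.log ρ / 8)
    exact this.eventually (eventually_ge_atTop _)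
  obtain ⟨n1, hn1⟩ := eventually_atTop.1 (((e2.and e3).and e4).and
    ((eventually_ge_atTop (⌈10 * D⌉₊ + 2)).and (eventually_ge_atTop (n0 + 8))))
  refine ⟨n1 + 2, by omega, fun n hn => ?_⟩
  obtain ⟨⟨⟨h2, h3⟩, h4⟩, h5, h6⟩ := hn1 n (by omega)
  have hn0 : (0:ℝ) < n := by exact_mod_cast (by omega : 0 < n)
  have hn10 : 10 * D ≤ n := by
    have : 10 * D ≤ ((⌈10 * D⌉₊ + 2 : ℕ) : ℝ) := by push_cast; linarith [Nat.le_ceil (10 * D)]
    exact this.trans (by exact_mod_cast h5)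
  have hbpos : ∀ m : ℕ, 2 ≤ m → 0 < b m := fun m hm => (Real.exp_pos _).trans_le (hlow m hm)
  have hd : D / n ≤ 1 / 10 := by
    rw [div_le_iff₀ hn0]; linarith
  have hd0 : 0 ≤ D / n := by positivity
  have hβ' : β n ≤ D / n * b (n + 1) := by
    have hb1 := hlow (n + 1) (by omega)
    have hC : C0 * ρ ^ n ≤ (|C0| + 1) * ρ ^ n :=
      mul_le_mul_of_nonneg_right (by linarith [le_abs_self C0]) (by positivity)
    refine (hβ n).trans (hC.trans ?_)
    have hkey : (|C0| + 1) * ρ ^ n ≤ 1 / n * Real.exp (-(B * Real.log ((n + 1 : ℕ):ℝ) ^ k)) := by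
      have hx1 : (|C0| + 1) = Real.exp (Real.log (|C0| + 1)) := (Real.exp_log (by positivity)).symm
      have hx2 : ρ ^ n = Real.exp (Real.log ρ * n) := by
        rw [mul_comm, Real.exp_nat_mul, Real.exp_log hρ0]
      have hx3 : 1 / (n:ℝ) = Real.exp (-Real.log n) := by
        rw [Real.exp_neg, Real.exp_log hn0, one_div]
      rw [hx1, hx2, hx3, ← Real.exp_add, ← Real.exp_add, Real.exp_le_exp]
      push_cast at h2 ⊢
      have h8 : (8:ℝ) ≤ n := by exact_mod_cast (by omega : 8 ≤ n)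
      have h9 : -Real.log ρ / 4 * ((n:ℝ) + 1) ≤ -Real.log ρ * (9 / 32) * n := by nlinarith
      simp only [one_mul, pow_one] at h3
      nlinarith
    refine hkey.trans ?_
    apply mul_le_mul _ hb1 (Real.exp_pos _).le hd0
    exact div_le_div_of_nonneg_right hD hn0.le
  have := rel_alg' (hbpos n (by omega)) (hbpos (n + 1) (by omega)) (hbpos (n + 2) (by omega))
    hd0 hd hβ' (hrel n (by omega))
  rw [show 5 * D / (n:ℝ) = 5 * (D / n) by ring]
  exact this

lemma contr {L C x : ℝ} (hL : Real.log (|C| + 1) + 1 ≤ L) (hx : L ≤ x) : C < Real.exp x := by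
  have h1 : |C| + 1 < Real.exp x := by
    rw [← Real.exp_log (by positivity : 0 < |C| + 1), Real.exp_lt_exp]
    linarith
  linarith [le_abs_self C]

theorem ratio_main {b β : ℕ → ℝ} {D C0 ρ B C : ℝ} {k n0 : ℕ} (hk : 1 ≤ k) (hD : 1 ≤ D)
    (hρ0 : 0 < ρ) (hρ1 : ρ < 1) (hβ : ∀ n, β n ≤ C0 * ρ ^ n)
    (hrel : ∀ n, n0 ≤ n → (b (n + 1) - β n) ^ 2 ≤
      (1 + D / n) ^ 2 * (b n * (b (n + 2) + D / n * b (n + 1))))
    (hlow : ∀ n : ℕ, 2 ≤ n → Real.exp (-(B * Real.log n ^ k)) ≤ b n)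
    (hC : ∀ n, b n ≤ C) :
    ∃ A : ℝ, ∀ n : ℕ, 2 ≤ n → |b (n + 1) / b n - 1| ≤ A * √(Real.log n ^ k / n) := by
  obtain ⟨n1, hn1, hH⟩ := eventually_H hD hρ0 hρ1 hβ hrel hlow
  have hbpos : ∀ m : ℕ, 2 ≤ m → 0 < b m := fun m hm => (Real.exp_pos _).trans_le (hlow m hm)
  set E : ℝ := 5 * D with hE
  have hE5 : 5 ≤ E := by rw [hE]; linarith
  set A0 : ℝ := √(64 * E * (|B| + 1)) with hA0
  have hA0sq : A0 ^ 2 = 64 * E * (|B| + 1) := Real.sq_sqrt (by positivity)
  have hA0pos : 0 < A0 := Real.sqrt_pos.2 (by positivity)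
  have e1 := log_pow_little k (A0 ^ 2) 1 one_pos
  have e2 : ∀ᶠ n : ℕ in atTop, (16 * E / A0) ^ 2 ≤ (n:ℝ) :=
    (tendsto_natCast_atTop_atTop (R := ℝ)).eventually (eventually_ge_atTop _)
  have e3 : ∀ᶠ n : ℕ in atTop, Real.log (|C| + 1) + 1 ≤ Real.log (n:ℝ) :=
    (Real.tendsto_log_atTop.comp (tendsto_natCast_atTop_atTop (R := ℝ))).eventually
      (eventually_ge_atTop _)
  have key : ∀ᶠ n : ℕ in atTop, |b (n + 1) / b n - 1| ≤ A0 * √(Real.log n ^ k / n) := by
    filter_upwards [e1, e2, e3, eventually_ge_atTop (2 * n1)] with n h1 h2 h3 h4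
    have hnpos : 0 < n := by omega
    have hn0 : (0:ℝ) < n := by exact_mod_cast hnpos
    have hlogC : 0 ≤ Real.log (|C| + 1) := Real.log_nonneg (by linarith [abs_nonneg C])
    have hlog1 : 1 ≤ Real.log (n:ℝ) := by linarith
    set L : ℝ := Real.log n ^ k with hL
    have hLlog : Real.log (n:ℝ) ≤ L := by
      rw [hL]; exact le_self_pow₀ hlog1 (by omega)
    have hL1 : 1 ≤ L := by linarith
    set δ : ℝ := A0 * √(L / n) with hδ
    have hδ0 : 0 < δ := by rw [hδ]; exact mul_pos hA0pos (Real.sqrt_pos.2 (by positivity))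
    have hδsq : δ ^ 2 * n = A0 ^ 2 * L := by
      have h0 : √(L / n) ^ 2 = L / n := Real.sq_sqrt (by positivity)
      rw [hδ, mul_pow, h0, mul_assoc, div_mul_cancel₀ _ hn0.ne']
    have hδ1 : δ ≤ 1 := by
      have : δ ^ 2 * n ≤ 1 * n := by rw [hδsq]; exact h1
      have h5 : δ ^ 2 ≤ 1 := le_of_mul_le_mul_right this hn0
      nlinarith
    have hδn : 16 * E ≤ δ * n := by
      have h5 : (16 * E) ^ 2 ≤ A0 ^ 2 * n := by
        rw [div_pow, div_le_iff₀ (by positivity)] at h2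
        linarith
      have h6 : (16 * E) ^ 2 ≤ (δ * n) ^ 2 := by
        have : (δ * n) ^ 2 = (δ ^ 2 * n) * n := by ring
        rw [this, hδsq]
        have h7 : A0 ^ 2 * n ≤ A0 ^ 2 * n * L := le_mul_of_one_le_right (by positivity) hL1
        linarith
      exact (pow_le_pow_iff_left₀ (by positivity) (by positivity) (by norm_num)).1 h6
    set J : ℕ := ⌊δ * n / (8 * E)⌋₊ with hJ
    have hJle : (J:ℝ) ≤ δ * n / (8 * E) := Nat.floor_le (by positivity)
    have hJge : δ * n / (16 * E) ≤ J := by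
      have h5 : δ * n / (8 * E) < J + 1 := Nat.lt_floor_add_one _
      have h6 : 1 ≤ δ * n / (16 * E) := by rw [le_div_iff₀ (by positivity)]; linarith
      have h7 : δ * n / (8 * E) = 2 * (δ * n / (16 * E)) := by
        field_simp; norm_num
      linarith
    have hJ8 : 8 * E * J ≤ δ * n := by
      rw [le_div_iff₀ (by positivity)] at hJle; linarith
    have hJ6 : 6 * E * J ≤ δ * n := by
      have : 0 ≤ 2 * E * J := by positivity
      linarith
    have hJN : 2 * J ≤ n := by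
      have h5 : 2 * (J:ℝ) ≤ n := by
        have : δ * n ≤ n := by nlinarith
        have h8 : 2 * (J:ℝ) ≤ 8 * E * J := by
          apply mul_le_mul_of_nonneg_right _ (Nat.cast_nonneg _); linarith
        linarith
      exact_mod_cast h5
    have hδJ : 4 * ((|B| + 1) * L) ≤ δ * J := by
      have h5 : δ * (δ * n / (16 * E)) ≤ δ * J := mul_le_mul_of_nonneg_left hJge hδ0.le
      have h6 : δ * (δ * n / (16 * E)) = δ ^ 2 * n / (16 * E) := by ring
      rw [h6, hδsq, hA0sq] at h5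
      have h7 : 64 * E * (|B| + 1) * L / (16 * E) = 4 * ((|B| + 1) * L) := by
        field_simp; norm_num
      linarith
    have hBL : B * L ≤ |B| * L := mul_le_mul_of_nonneg_right (le_abs_self B) (by linarith)
    have hbn := hlow n (by omega)
    rw [abs_le]
    constructor
    · by_contra hcon
      push Not at hcon
      have h5 : b (n + 1) / b n ≤ 1 - δ := by linarith
      have h6 := bwd_prod (E := E) (n1 := n1) (by linarith) h4 hnpos (fun m hm => hbpos m (by omega))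
        hH hδ1 hδ0 h5 hJ8 hJN J le_rfl
      have h7 : (1 - δ / 2) ^ J ≤ Real.exp (-(δ / 2 * J)) := by
        have : 1 - δ / 2 ≤ Real.exp (-(δ / 2)) := Real.one_sub_le_exp_neg _
        calc (1 - δ / 2) ^ J ≤ Real.exp (-(δ / 2)) ^ J := pow_le_pow_left₀ (by linarith) this J
          _ = Real.exp (-(δ / 2 * J)) := by rw [← Real.exp_nat_mul]; congr 1; ring
      have hC0 : 0 ≤ C := (hbpos 2 le_rfl).le.trans (hC 2)
      have h8 : Real.exp (-(B * L)) ≤ C * Real.exp (-(δ / 2 * J)) := by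
        refine hbn.trans (h6.trans ?_)
        apply mul_le_mul (hC _) h7 (pow_nonneg (by linarith) _) hC0
      have h9 : Real.exp (δ / 2 * J - B * L) ≤ C := by
        have : Real.exp (δ / 2 * J - B * L) = Real.exp (-(B * L)) * Real.exp (δ / 2 * J) := by
          rw [← Real.exp_add]; congr 1; ring
        rw [this]
        calc Real.exp (-(B * L)) * Real.exp (δ / 2 * J) ≤
            C * Real.exp (-(δ / 2 * J)) * Real.exp (δ / 2 * J) :=
              mul_le_mul_of_nonneg_right h8 (Real.exp_pos _).le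
          _ = C := by rw [mul_assoc, ← Real.exp_add]; simp
      have h10 := contr (C := C) (L := L) (x := δ / 2 * J - B * L) (by linarith) (by nlinarith)
      linarith
    · by_contra hcon
      push Not at hcon
      have h5 : 1 + δ ≤ b (n + 1) / b n := by linarith
      have h6 := fwd_prod (E := E) (n1 := n1) (by linarith) (by omega) hnpos
        (fun m hm => hbpos m (by omega)) hH hδ0 hδ1 h5 hJ6 J le_rfl
      have h7 : Real.exp (δ / 4 * J) ≤ (1 + δ / 2) ^ J := by
        have h11 : Real.exp (δ / 4) ≤ 1 + δ / 2 := by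
          have h12 : 1 - δ / 4 ≤ Real.exp (-(δ / 4)) := Real.one_sub_le_exp_neg _
          rw [Real.exp_neg] at h12
          have h13 : 0 < Real.exp (δ / 4) := Real.exp_pos _
          have h14 : Real.exp (δ / 4) * (1 - δ / 4) ≤ 1 := by
            calc Real.exp (δ / 4) * (1 - δ / 4) ≤ Real.exp (δ / 4) * (Real.exp (δ / 4))⁻¹ :=
                  mul_le_mul_of_nonneg_left h12 h13.le
              _ = 1 := mul_inv_cancel₀ h13.ne'
          have h15 : 1 ≤ (1 + δ / 2) * (1 - δ / 4) := by nlinarith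
          have h16 : 0 < 1 - δ / 4 := by linarith
          exact le_of_mul_le_mul_right (h14.trans h15) h16
        calc Real.exp (δ / 4 * J) = Real.exp (δ / 4) ^ J := by
              rw [← Real.exp_nat_mul]; congr 1; ring
          _ ≤ _ := pow_le_pow_left₀ (Real.exp_pos _).le h11 J
      have h9 : Real.exp (δ / 4 * J - B * L) ≤ C := by
        have : Real.exp (δ / 4 * J - B * L) = Real.exp (-(B * L)) * Real.exp (δ / 4 * J) := by
          rw [← Real.exp_add]; congr 1; ring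
        rw [this]
        calc Real.exp (-(B * L)) * Real.exp (δ / 4 * J) ≤ b n * (1 + δ / 2) ^ J :=
              mul_le_mul hbn h7 (Real.exp_pos _).le (hbpos n (by omega)).le
          _ ≤ b (n + J) := h6
          _ ≤ C := hC _
      have h10 := contr (C := C) (L := L) (x := δ / 4 * J - B * L) (by linarith) (by nlinarith)
      linarith
  obtain ⟨N, hN⟩ := eventually_atTop.1 key
  -- finitely many remaining indices
  obtain ⟨A1, hA1⟩ : ∃ A1 : ℝ, ∀ n ∈ Finset.Ico 2 N,
      |b (n + 1) / b n - 1| / √(Real.log n ^ k / n) ≤ A1 := by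
    refine ⟨∑ n ∈ Finset.Ico 2 N, |b (n + 1) / b n - 1| / √(Real.log n ^ k / n), fun n hn => ?_⟩
    exact Finset.single_le_sum (f := fun n : ℕ => |b (n + 1) / b n - 1| / √(Real.log n ^ k / n))
      (fun m _ => by positivity) hn
  refine ⟨max A0 A1, fun n hn => ?_⟩
  have hn0 : (0:ℝ) < n := by exact_mod_cast (by omega : 0 < n)
  have hlog : 0 < Real.log (n:ℝ) := Real.log_pos (by exact_mod_cast (by omega : 1 < n))
  have hs : 0 < √(Real.log n ^ k / n) := Real.sqrt_pos.2 (by positivity)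
  rcases le_or_gt N n with h | h
  · exact (hN n h).trans (mul_le_mul_of_nonneg_right (le_max_left _ _) hs.le)
  · have h1 := hA1 n (Finset.mem_Ico.2 ⟨hn, h⟩)
    rw [div_le_iff₀ hs] at h1
    exact h1.trans (mul_le_mul_of_nonneg_right (le_max_right _ _) hs.le)

end Pool.Agent.Work.MP_376faf_co_ratio
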