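import Pool.Agent.Work.MP_376faf_co.LFinal
import Pool.Agent.Work.MP_376faf_co_ratio.Main

/-! The ratio theorem for self-avoiding polygons on the square lattice. -/

set_option autoImplicit false

namespace Pool.Agent.Work.MP_376faf_co_ratio

open Filter Topology Pool.Agent.Work.MP_376faf_co Pool.Agent.Work.MP_376faf_co.LC

/-- number of polygons of perimeter `2n` up to translation -/
noncomputable def pp (n : ℕ) : ℝ := (Nat.card (PolyFun n) : ℝ) / (4 * (n:ℝ))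

theorem poly_ratio {μ : ℝ} {k : ℕ} (hk : 1 ≤ k) (hμ1 : 1 ≤ μ)
    (hT : Tendsto (fun n : ℕ => ((Nat.card (WalkFun n) : ℕ) : ℝ) ^ ((1:ℝ) / (n:ℝ))) atTop (𝓝 μ))
    {B : ℝ} (hlow : ∀ n : ℕ, 2 ≤ n → μ ^ (2 * n) * Real.exp (-(B * (Real.log n) ^ k)) ≤ pp n) :
    ∃ A : ℝ, ∀ n : ℕ, 2 ≤ n → |pp (n + 1) / pp n - μ ^ 2| ≤ A * √((Real.log n) ^ k / n) := by
  have hμ : IsMu μ := ⟨hμ1, hT⟩
  have hμ2 := mu_ge hT
  have hμ0 : 0 < μ := by linarith
  have haa : ∀ n : ℕ, pp n = aa μ n * μ ^ (2 * n) := fun n => by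
    unfold aa pp
    rw [div_mul_cancel₀ _ (by positivity)]
  have hb4 : ∀ n : ℕ, 1 ≤ n → NN (2 * n) / μ ^ (2 * n) = 4 * (n * aa μ n) := fun n hn => by
    have h1 := aa_eq (μ := μ) hn
    have hn0 : (n:ℝ) ≠ 0 := by exact_mod_cast (by omega : n ≠ 0)
    rw [div_eq_iff hn0] at h1
    rw [h1]; ring
  have hlow' : ∀ n : ℕ, 2 ≤ n →
      Real.exp (-(B * (Real.log n) ^ k)) ≤ NN (2 * n) / μ ^ (2 * n) := fun n hn => by
    have h1 := hlow n hn
    rw [haa n, mul_comm] at h1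
    have h2 := le_of_mul_le_mul_right h1 (by positivity : 0 < μ ^ (2 * n))
    rw [hb4 n (by omega)]
    have hn1 : (1:ℝ) ≤ n := by exact_mod_cast (by omega : 1 ≤ n)
    have h3 := aa_nonneg hμ1 n
    nlinarith
  obtain ⟨C, hC⟩ : ∃ C : ℝ, ∀ n : ℕ, NN (2 * n) / μ ^ (2 * n) ≤ C := by
    obtain ⟨C, hC⟩ := (pointwise hμ).bddAbove_range
    refine ⟨max (4 * C) (NN (2 * 0) / μ ^ (2 * 0)), fun n => ?_⟩
    rcases Nat.eq_zero_or_pos n with rfl | hn
    · exact le_max_right _ _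
    · rw [hb4 n hn]
      exact le_max_of_le_left (mul_le_mul_of_nonneg_left (hC ⟨n, rfl⟩) (by norm_num))
  obtain ⟨A, hA⟩ := ratio_main (b := fun n : ℕ => NN (2 * n) / μ ^ (2 * n))
    (β := fun n => bad (2 * n + 2) (n / 200) / μ ^ (2 * n + 2)) (D := 30000) (C0 := 14)
    (ρ := 983 / 1000) (n0 := 4000) hk (by norm_num) (by norm_num) (by norm_num)
    (beta_bound hμ2) (rel_scaled hμ2) hlow' hC
  have hl2 : 0 < Real.log 2 := Real.log_pos (by norm_num)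
  refine ⟨μ ^ 2 * (A + 1 / √(Real.log 2 ^ k)), fun n hn => ?_⟩
  have hn0 : (0:ℝ) < n := by exact_mod_cast (by omega : 0 < n)
  have hnr : (1:ℝ) ≤ n := by exact_mod_cast (by omega : 1 ≤ n)
  have hbn : 0 < NN (2 * n) / μ ^ (2 * n) := (Real.exp_pos _).trans_le (hlow' n hn)
  set x := NN (2 * n) / μ ^ (2 * n) with hx
  set y := NN (2 * (n + 1)) / μ ^ (2 * (n + 1)) with hy
  have hA' : |y / x - 1| ≤ A * √(Real.log n ^ k / n) := hA n hn
  have hs0 : 0 < √(Real.log 2 ^ k) := Real.sqrt_pos.2 (by positivity)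
  have h1 : pp n = x / (4 * n) * μ ^ (2 * n) := by
    rw [haa, hx, hb4 n (by omega)]
    field_simp
  have h2 : pp (n + 1) = y / (4 * ((n + 1 : ℕ) : ℝ)) * μ ^ (2 * n) * μ ^ 2 := by
    rw [haa, hy, hb4 (n + 1) (by omega), show 2 * (n + 1) = 2 * n + 2 by ring, pow_add]
    have : (((n + 1 : ℕ) : ℝ)) ≠ 0 := by positivity
    field_simp
  have h3 : pp (n + 1) / pp n = μ ^ 2 * (y / x * (n / (n + 1))) := by
    rw [h1, h2]
    push_cast
    field_simp
  have h4 : pp (n + 1) / pp n - μ ^ 2 = μ ^ 2 * ((y / x - 1) * (n / (n + 1)) - 1 / (n + 1)) := by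
    rw [h3]
    field_simp
    ring
  rw [h4, abs_mul, abs_of_nonneg (by positivity : (0:ℝ) ≤ μ ^ 2), mul_assoc]
  apply mul_le_mul_of_nonneg_left _ (by positivity)
  have h5 : (n:ℝ) / (n + 1) ≤ 1 := by rw [div_le_one (by linarith)]; linarith
  have h6 : 1 / ((n:ℝ) + 1) ≤ 1 / √(Real.log 2 ^ k) * √(Real.log n ^ k / n) := by
    have h7 : √(Real.log 2 ^ k) * (1 / √n) ≤ √(Real.log n ^ k / n) := by
      rw [Real.sqrt_div' _ hn0.le, mul_one_div]
      apply div_le_div_of_nonneg_right _ (Real.sqrt_nonneg _)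
      apply Real.sqrt_le_sqrt
      apply pow_le_pow_left₀ hl2.le
      exact Real.log_le_log (by norm_num) (by exact_mod_cast hn)
    have h8 : 1 / ((n:ℝ) + 1) ≤ 1 / √n := by
      apply one_div_le_one_div_of_le (Real.sqrt_pos.2 hn0)
      rw [Real.sqrt_le_left (by linarith)]
      nlinarith
    calc 1 / ((n:ℝ) + 1) ≤ 1 / √n := h8
      _ = 1 / √(Real.log 2 ^ k) * (√(Real.log 2 ^ k) * (1 / √n)) := by
          field_simp
      _ ≤ _ := mul_le_mul_of_nonneg_left h7 (by positivity)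
  calc |(y / x - 1) * (n / (n + 1)) - 1 / (n + 1)| ≤
      |(y / x - 1) * (n / (n + 1))| + |1 / ((n:ℝ) + 1)| := abs_sub _ _
    _ ≤ |y / x - 1| + 1 / ((n:ℝ) + 1) := by
        rw [abs_mul, abs_of_nonneg (by positivity : 0 ≤ (n:ℝ) / (n + 1)),
          abs_of_nonneg (by positivity : 0 ≤ 1 / ((n:ℝ) + 1))]
        have := mul_le_mul_of_nonneg_left h5 (abs_nonneg (y / x - 1))
        linarith
    _ ≤ A * √(Real.log n ^ k / n) + 1 / √(Real.log 2 ^ k) * √(Real.log n ^ k / n) := by linarith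
    _ = _ := by ring

end Pool.Agent.Work.MP_376faf_co_ratio
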