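import Pool.Agent.Work.MP_376faf_co_log.Glue
import Pool.Agent.Work.MP_376faf_co_ratio.Final

/-! The ratio theorem with the present lower bound (exponent 15). -/

set_option autoImplicit false

namespace Pool.Agent.Work.MP_376faf_co_ratio

open Filter Topology

theorem ratio_fifteen : ∃ μ : ℝ,
    Tendsto (fun n : ℕ => ((Nat.card (Pool.Agent.Work.MP_376faf_co.WalkFun n) : ℕ) : ℝ) ^
      ((1:ℝ) / (n:ℝ))) atTop (𝓝 μ) ∧
    (∃ B : ℝ, 0 < B ∧ ∀ n : ℕ, 2 ≤ n →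
      μ ^ (2 * n) * Real.exp (-(B * (Real.log n) ^ 15)) ≤ pp n) ∧
    ∃ A : ℝ, ∀ n : ℕ, 2 ≤ n → |pp (n + 1) / pp n - μ ^ 2| ≤ A * √((Real.log n) ^ 15 / n) := by
  obtain ⟨μ, h1, h2, h3⟩ := Pool.Agent.Work.MP_376faf_co_lower.exists_mu
  obtain ⟨B, hB, h⟩ := Pool.Agent.Work.MP_376faf_co_log.log_bounds h1 h2 h3
  exact ⟨μ, h2, ⟨B, hB, fun n hn => (h n hn).2⟩,
    poly_ratio (by norm_num) h1 h2 (fun n hn => (h n hn).2)⟩

end Pool.Agent.Work.MP_376faf_co_ratio
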