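import Pool.Agent.Work.MP_376faf_co_lower.Final
import Pool.Agent.Work.MP_376faf_co_ratio.Block
import Pool.Agent.Work.MP_376faf_co_ratio.Final

/-! Infinitely many blocks of length about sqrt n / log^(k/2) n on which the polygon counts are
at least `mu^(2m) m^(-4-eps)`. -/

set_option autoImplicit false

namespace Pool.Agent.Work.MP_376faf_co_ratio

open Filter Topology Pool.Agent.Work.MP_376faf_co_lower

theorem freq_block {μ : ℝ} {k : ℕ} (hk : 1 ≤ k) (hμ1 : 1 ≤ μ)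
    (hc : ∀ n : ℕ, μ ^ n ≤ (Nat.card (WalkFun n) : ℝ)) {A : ℝ}
    (hpos : ∀ n : ℕ, 2 ≤ n → 0 < pp n)
    (hA : ∀ n : ℕ, 2 ≤ n → |pp (n + 1) / pp n - μ ^ 2| ≤ A * √((Real.log n) ^ k / n))
    {ε : ℝ} (hε : 0 < ε) :
    ∃ᶠ n : ℕ in atTop, ∀ m : ℕ, |(m:ℝ) - n| ≤ √(n / (Real.log n) ^ k) →
      μ ^ (2 * m) * (m:ℝ) ^ (-(4 + ε)) < pp m := by
  have hμ0 : 0 < μ := by linarith
  have h := block (a := fun n => pp n / μ ^ (2 * n)) (k := k) (A := A) (α := 4) (ε := ε) hk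
    (by norm_num) hε (fun m hm => div_pos (hpos m hm) (by positivity)) (fun n hn => ?_) ?_
  · refine h.mono (fun n hn m hm => ?_)
    have := hn m hm
    rw [lt_div_iff₀ (by positivity)] at this
    rw [mul_comm]
    exact this
  · have h1 := hA n hn
    have hp := hpos n hn
    have e : pp (n + 1) / μ ^ (2 * (n + 1)) / (pp n / μ ^ (2 * n)) - 1 =
        (pp (n + 1) / pp n - μ ^ 2) / μ ^ 2 := by
      have : μ ^ (2 * (n + 1)) = μ ^ (2 * n) * μ ^ 2 := by ring
      rw [this]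
      field_simp
    have h2 : (1:ℝ) ≤ μ ^ 2 := one_le_pow₀ hμ1
    rw [e, abs_div, abs_of_pos (by positivity : (0:ℝ) < μ ^ 2)]
    exact (div_le_self (abs_nonneg _) h2).trans h1
  · exact frequently_large hμ1 hc (half_pos hε)

end Pool.Agent.Work.MP_376faf_co_ratio
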