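import Mathlib

/-! Near log-convexity, boundedness and a lower bound exp(-B log^k n) give the ratio of consecutive
terms with error of order log^(k/2) n / sqrt n, for every n. -/

set_option autoImplicit false

namespace Pool.Agent.Work.MP_376faf_co_ratio

open Filter Topology

theorem fwd_chain {f : ℕ → ℝ} {E δ : ℝ} {n1 N J : ℕ} (hE : 0 < E) (hN : n1 ≤ N) (hN0 : 0 < N)
    (hH : ∀ n, n1 ≤ n → f n ≤ f (n + 1) + E / n * (1 + f (n + 1)))
    (hδ0 : 0 < δ) (hδ1 : δ ≤ 1) (h : 1 + δ ≤ f N) (hJ : 6 * E * J ≤ δ * N) :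
    ∀ j ≤ J, 1 + δ - 3 * E * j / N ≤ f (N + j) := by
  have hNr : (0:ℝ) < N := by exact_mod_cast hN0
  intro j
  induction j with
  | zero => intro _; simpa using h
  | succ j ih =>
    intro hj
    have h1 := ih (by omega)
    have h2 := hH (N + j) (by omega)
    have e : N + j + 1 = N + (j + 1) := by ring
    rw [e] at h2
    have hn : (N:ℝ) ≤ ((N + j : ℕ) : ℝ) := by push_cast; linarith [Nat.cast_nonneg (α := ℝ) j]
    have hx : E / ((N + j : ℕ) : ℝ) ≤ E / N := div_le_div_of_nonneg_left hE.le hNr hn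
    have hx0 : 0 < E / ((N + j : ℕ) : ℝ) := div_pos hE (by linarith)
    set x := E / ((N + j : ℕ) : ℝ) with hxdef
    set y := E / (N:ℝ) with hy
    have hjJ : ((j + 1 : ℕ) : ℝ) ≤ J := by exact_mod_cast hj
    have hyj : 3 * y * ((j + 1 : ℕ) : ℝ) ≤ δ / 2 := by
      have h3 : 3 * y * (J : ℝ) ≤ δ / 2 := by
        rw [hy]
        rw [show 3 * (E / (N:ℝ)) * (J : ℝ) = (3 * E * J) / N by ring, div_le_iff₀ hNr]
        linarith
      refine le_trans ?_ h3
      apply mul_le_mul_of_nonneg_left hjJ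
      rw [hy]; positivity
    have e1 : 3 * E * ((j:ℕ):ℝ) / N = 3 * y * j := by rw [hy]; ring
    have e2 : 3 * E * ((j + 1:ℕ):ℝ) / N = 3 * y * ((j + 1 : ℕ) : ℝ) := by rw [hy]; ring
    rw [e1] at h1
    rw [e2]
    push_cast at hyj ⊢
    by_contra hcon
    push Not at hcon
    have hy0 : 0 < y := by rw [hy]; positivity
    have h4 : x * (1 + f (N + (j + 1))) ≤ y * 3 := by
      have h5 : 1 + f (N + (j + 1)) ≤ 3 := by
        have : 0 ≤ 3 * y * ((j:ℝ) + 1) := by positivity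
        linarith
      calc x * (1 + f (N + (j + 1))) ≤ x * 3 := mul_le_mul_of_nonneg_left h5 hx0.le
        _ ≤ y * 3 := by linarith
    nlinarith

theorem fwd_prod {b : ℕ → ℝ} {E δ : ℝ} {n1 N J : ℕ} (hE : 0 < E) (hN : n1 ≤ N) (hN0 : 0 < N)
    (hb : ∀ n, n1 ≤ n → 0 < b n)
    (hH : ∀ n, n1 ≤ n → b (n + 1) / b n ≤ b (n + 2) / b (n + 1) +
      E / n * (1 + b (n + 2) / b (n + 1)))
    (hδ0 : 0 < δ) (hδ1 : δ ≤ 1) (h : 1 + δ ≤ b (N + 1) / b N) (hJ : 6 * E * J ≤ δ * N) :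
    ∀ j ≤ J, b N * (1 + δ / 2) ^ j ≤ b (N + j) := by
  have hNr : (0:ℝ) < N := by exact_mod_cast hN0
  have hc := fwd_chain (f := fun n => b (n + 1) / b n) hE hN hN0 hH hδ0 hδ1 h hJ
  intro j
  induction j with
  | zero => intro _; simp
  | succ j ih =>
    intro hj
    have h1 := ih (by omega)
    have h2 := hc j (by omega)
    have hbp := hb (N + j) (by omega)
    have h3 : 1 + δ / 2 ≤ b (N + j + 1) / b (N + j) := by
      refine le_trans ?_ h2
      have : 3 * E * (j:ℝ) / N ≤ δ / 2 := by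
        rw [div_le_iff₀ hNr]
        have hjJ : (j : ℝ) ≤ J := by exact_mod_cast (by omega : j ≤ J)
        have := mul_le_mul_of_nonneg_left hjJ (by positivity : 0 ≤ 3 * E)
        linarith
      linarith
    rw [le_div_iff₀ hbp] at h3
    have e : N + (j + 1) = N + j + 1 := by ring
    rw [e, pow_succ]
    calc b N * ((1 + δ / 2) ^ j * (1 + δ / 2)) = (1 + δ / 2) * (b N * (1 + δ / 2) ^ j) := by ring
      _ ≤ (1 + δ / 2) * b (N + j) := by
          apply mul_le_mul_of_nonneg_left h1; linarith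
      _ ≤ _ := h3

theorem bwd_chain {f : ℕ → ℝ} {E δ : ℝ} {n1 N J : ℕ} (hE : 0 < E) (hN : 2 * n1 ≤ N) (hN0 : 0 < N)
    (hH : ∀ n, n1 ≤ n → f n ≤ f (n + 1) + E / n * (1 + f (n + 1)))
    (hδ1 : δ ≤ 1) (hδ0 : 0 < δ) (h : f N ≤ 1 - δ) (hJ : 8 * E * J ≤ δ * N) (hJN : 2 * J ≤ N) :
    ∀ j ≤ J, f (N - j) ≤ 1 - δ + 4 * E * j / N := by
  have hNr : (0:ℝ) < N := by exact_mod_cast hN0
  intro j
  induction j with
  | zero => intro _; simpa using h
  | succ j ih =>
    intro hj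
    have h1 := ih (by omega)
    have h2 := hH (N - (j + 1)) (by omega)
    have e : N - (j + 1) + 1 = N - j := by omega
    rw [e] at h2
    have hn : (N:ℝ) / 2 ≤ ((N - (j + 1) : ℕ) : ℝ) := by
      have h3 : N ≤ 2 * (N - (j + 1)) := by omega
      have h4 : (N:ℝ) ≤ 2 * ((N - (j + 1) : ℕ) : ℝ) := by exact_mod_cast h3
      linarith
    have hx : E / ((N - (j + 1) : ℕ) : ℝ) ≤ 2 * (E / N) := by
      calc E / ((N - (j + 1) : ℕ) : ℝ) ≤ E / ((N:ℝ) / 2) :=
            div_le_div_of_nonneg_left hE.le (by linarith) hn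
        _ = 2 * (E / N) := by field_simp
    have hx0 : 0 < E / ((N - (j + 1) : ℕ) : ℝ) := div_pos hE (by linarith)
    set x := E / ((N - (j + 1) : ℕ) : ℝ) with hxdef
    set y := E / (N:ℝ) with hy
    have hy0 : 0 < y := by rw [hy]; positivity
    have hyj : 4 * y * (J:ℝ) ≤ δ / 2 := by
      rw [hy, show 4 * (E / (N:ℝ)) * (J : ℝ) = (4 * E * J) / N by ring, div_le_iff₀ hNr]
      linarith
    have hjJ : (j : ℝ) ≤ J := by exact_mod_cast (by omega : j ≤ J)
    have hyj' : 4 * y * (j:ℝ) ≤ δ / 2 := le_trans (mul_le_mul_of_nonneg_left hjJ (by positivity)) hyj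
    have e1 : 4 * E * ((j:ℕ):ℝ) / N = 4 * y * j := by rw [hy]; ring
    have e2 : 4 * E * ((j + 1:ℕ):ℝ) / N = 4 * y * ((j:ℝ) + 1) := by rw [hy]; push_cast; ring
    rw [e1] at h1
    rw [e2]
    have h6 : f (N - j) ≤ 1 := by linarith
    have h5 : x * (1 + f (N - j)) ≤ x * 2 := mul_le_mul_of_nonneg_left (by linarith) hx0.le
    nlinarith

theorem bwd_prod {b : ℕ → ℝ} {E δ : ℝ} {n1 N J : ℕ} (hE : 0 < E) (hN : 2 * n1 ≤ N) (hN0 : 0 < N)
    (hb : ∀ n, n1 ≤ n → 0 < b n)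
    (hH : ∀ n, n1 ≤ n → b (n + 1) / b n ≤ b (n + 2) / b (n + 1) +
      E / n * (1 + b (n + 2) / b (n + 1)))
    (hδ1 : δ ≤ 1) (hδ0 : 0 < δ) (h : b (N + 1) / b N ≤ 1 - δ) (hJ : 8 * E * J ≤ δ * N)
    (hJN : 2 * J ≤ N) :
    ∀ j ≤ J, b N ≤ b (N - j) * (1 - δ / 2) ^ j := by
  have hNr : (0:ℝ) < N := by exact_mod_cast hN0
  have hc := bwd_chain (f := fun n => b (n + 1) / b n) hE hN hN0 hH hδ1 hδ0 h hJ hJN
  intro j
  induction j with
  | zero => intro _; simp
  | succ j ih =>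
    intro hj
    have h1 := ih (by omega)
    have h2 := hc (j + 1) hj
    have hbp := hb (N - (j + 1)) (by omega)
    have e : N - (j + 1) + 1 = N - j := by omega
    have h3 : b (N - (j + 1) + 1) / b (N - (j + 1)) ≤ 1 - δ / 2 := by
      refine le_trans h2 ?_
      have : 4 * E * ((j + 1 : ℕ):ℝ) / N ≤ δ / 2 := by
        rw [div_le_iff₀ hNr]
        have hjJ : ((j + 1 : ℕ) : ℝ) ≤ J := by exact_mod_cast hj
        have := mul_le_mul_of_nonneg_left hjJ (by positivity : 0 ≤ 4 * E)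
        linarith
      linarith
    rw [e, div_le_iff₀ hbp] at h3
    have hpos : 0 ≤ (1 - δ / 2) ^ j := pow_nonneg (by linarith) _
    calc b N ≤ b (N - j) * (1 - δ / 2) ^ j := h1
      _ ≤ ((1 - δ / 2) * b (N - (j + 1))) * (1 - δ / 2) ^ j := mul_le_mul_of_nonneg_right h3 hpos
      _ = _ := by rw [pow_succ]; ring

end Pool.Agent.Work.MP_376faf_co_ratio
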